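import Mathlib
import Pool.Agent.MP_979a03_an.Null

/-! Off the cycle region, heavy ball converges on the whole class exactly when it is stable on
quadratics, apart from at most one threshold tuning on each ray `γ / (1 + β) = const`. -/

namespace Pool.Agent.Results.MP_979a03_an.Dichotomy

open Pool.Agent.MP_979a03_an Filter Topology

theorem result (μ L : ℝ) (hμ : 0 < μ) (hL : μ < L) :
    (∀ γ β : ℝ, ¬ InCyc μ L γ β → ¬ (Converges μ L γ β ↔ Stable L γ β) →
      Stable L γ β ∧
      (∀ β', β < β' → β' < 1 → InCyc μ L (γ * (1 + β') / (1 + β)) β') ∧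
      (∀ β', -1 < β' → β' < β → Converges μ L (γ * (1 + β') / (1 + β)) β') ∧
      (γ, β) ∈ closure {p : ℝ × ℝ | InCyc μ L p.1 p.2}) ∧
    MeasureTheory.volume {p : ℝ × ℝ | ¬ InCyc μ L p.1 p.2 ∧
      ¬ (Converges μ L p.1 p.2 ↔ Stable L p.1 p.2)} = 0 := by
  have key : ∀ γ β : ℝ, ¬ (Converges μ L γ β ↔ Stable L γ β) → Stable L γ β ∧ Dual μ L γ β := by
    intro γ β h
    by_cases hc : Converges μ L γ β
    · exact absurd ⟨fun _ => stable_of_converges hμ hL hc, fun _ => hc⟩ h
    · have hs : Stable L γ β := by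
        by_contra hs
        exact h ⟨fun h' => absurd h' hc, fun h' => absurd h' hs⟩
      exact ⟨hs, dual_of_not_converges hμ hL hs hc⟩
  refine ⟨fun γ β hc h => ?_, MeasureTheory.measure_mono_null ?_ (exceptional_null hμ hL)⟩
  · obtain ⟨hs, hd⟩ := key γ β h
    have hs0 : 0 < 1 + β := by nlinarith [hs.2.1, hs.2.2]
    refine ⟨hs, fun β' h1 h2 => inCyc_of_dual hμ hL hs hd h1 h2, fun β' h1 h2 => ?_, ?_⟩
    · by_contra hn
      exact not_dual_below hμ hL hs hc h1 h2 (dual_of_not_converges hμ hL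
        (stable_ray (by linarith) hs h1 (h2.trans hs.1)) hn)
    · have h1 : Tendsto (fun β' : ℝ => (γ * (1 + β') / (1 + β), β')) (𝓝[>] β)
          (𝓝 (γ * (1 + β) / (1 + β), β)) :=
        tendsto_nhdsWithin_of_tendsto_nhds (Continuous.tendsto (by fun_prop) β)
      rw [mul_div_cancel_right₀ _ hs0.ne'] at h1
      refine mem_closure_of_tendsto h1 ?_
      filter_upwards [self_mem_nhdsWithin, nhdsWithin_le_nhds (gt_mem_nhds hs.1)] with β' h2 h3
      exact inCyc_of_dual hμ hL hs hd h2 h3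
  · rintro ⟨γ, β⟩ ⟨hc, h⟩
    exact ⟨(key γ β h).1, (key γ β h).2, hc⟩

end Pool.Agent.Results.MP_979a03_an.Dichotomy
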