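import Mathlib
import Pool.Agent.MP_979a03_an.Gap2

/-! For every condition number there is an open set of tunings with no Lyapunov sequence of the
two-step form and no cycle, on which heavy ball converges. -/

namespace Pool.Agent.Results.MP_979a03_an.OpenGap

open Pool.Agent.MP_979a03_an

theorem result (μ L : ℝ) (hμ : 0 < μ) (hL : μ < L) :
    (interior {p : ℝ × ℝ | ¬ InLyap μ L p.1 p.2 ∧ ¬ InCyc μ L p.1 p.2 ∧
      Converges μ L p.1 p.2}).Nonempty :=
  interior_nonempty hμ hL

end Pool.Agent.Results.MP_979a03_an.OpenGap
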