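import Mathlib
import Pool.Agent.MP_979a03_an.Uniform

/-! Complete classification of the tunings by worst-case (dimension-free) behaviour. -/

namespace Pool.Agent.Results.MP_979a03_an.WorstCase

open Pool.Agent.MP_979a03_an

theorem result (μ L : ℝ) (hμ : 0 < μ) (hL : μ < L) (γ β : ℝ) :
    (Stable L γ β ∧ (γ, β) ∉ closure {p : ℝ × ℝ | InCyc μ L p.1 p.2} → LinRate μ L γ β) ∧
    (¬ (Stable L γ β ∧ (γ, β) ∉ closure {p : ℝ × ℝ | InCyc μ L p.1 p.2}) →
      NoDecay μ L γ β) := by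
  refine ⟨fun ⟨hs, hc⟩ => linRate_of_not_dual hμ hL hs
    fun hd => hc ((dual_iff_mem_closure hμ hL hs).mp hd), fun h => ?_⟩
  by_cases hs : Stable L γ β
  · refine noDecay_of_dual hμ hL hs.2.1.ne' ((dual_iff_mem_closure hμ hL hs).mpr ?_)
    by_contra hc
    exact h ⟨hs, hc⟩
  · exact noDecay_of_not_stable hμ hL hs

end Pool.Agent.Results.MP_979a03_an.WorstCase
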